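import Pool.Agent.H.MP_7a870e_al.Main

set_option autoImplicit false

namespace Pool.Agent.Results.MP_7a870e_al.Q1

def IsQuasivariety (L : FirstOrder.Language.{0, 0})
    (K : Set (CategoryTheory.Bundled.{0} L.Structure)) : Prop :=
  ∃ T : Set (List (L.Formula ℕ) × L.Formula ℕ),
    (∀ q ∈ T, (∀ φ ∈ q.1, φ.IsAtomic) ∧ q.2.IsAtomic) ∧
    K = {A : CategoryTheory.Bundled.{0} L.Structure | Nonempty A ∧
      ∀ q ∈ T, ∀ v : ℕ → A, (∀ φ ∈ q.1, φ.Realize v) → q.2.Realize v}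

theorem result : ∃ τ : FirstOrder.Language.{0, 0}, Finite τ.Symbols ∧
    ∃ K, IsQuasivariety τ K ∧
      ∀ σ : FirstOrder.Language.{0, 0}, Finite σ.Symbols → ∀ M, IsQuasivariety σ M →
        ∃ Φ : {N // IsQuasivariety σ N ∧ N ⊆ M} → {N // IsQuasivariety τ N ∧ N ⊆ K},
          Function.Injective Φ ∧
          (∀ X Y Z, IsGLB {X, Y} Z → IsGLB {Φ X, Φ Y} (Φ Z)) ∧
          (∀ X Y Z, IsLUB {X, Y} Z → IsLUB {Φ X, Φ Y} (Φ Z)) := by
  open Pool.Agent.H.MP_7a870e_al in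
  refine ⟨τ, inferInstance, {A | Nonempty A}, ⟨∅, by simp, by simp⟩, fun σ _ M hM => ?_⟩
  open Pool.Agent.H.MP_7a870e_al in
  obtain ⟨E⟩ := exists_enc (σ := σ)
  open Pool.Agent.H.MP_7a870e_al in
  have mono : ∀ X Y : {N // IsQuasivariety σ N ∧ N ⊆ M}, Φ E X.1 ⊆ Φ E Y.1 ↔ X ≤ Y :=
    fun X Y => Φ_le (QV.cl X.2.1) (QV.cl Y.2.1)
  open Pool.Agent.H.MP_7a870e_al in
  refine ⟨fun X => ⟨Φ E X.1, (Φ_cl (QV.cl X.2.1)).qv, fun C hC => hC.1⟩, fun X Y e => ?_,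
    fun X Y Z hZ => ⟨?_, fun N hN => ?_⟩, fun X Y Z hZ => ⟨?_, fun N hN => ?_⟩⟩
  · have e' := congrArg Subtype.val e
    exact le_antisymm ((mono _ _).1 e'.le) ((mono _ _).1 e'.ge)
  · rintro _ (rfl | rfl)
    · exact (mono _ _).2 (hZ.1 (Or.inl rfl))
    · exact (mono _ _).2 (hZ.1 (Or.inr rfl))
  · open Pool.Agent.H.MP_7a870e_al in
    have : (⟨X.1 ∩ Y.1, ((QV.cl X.2.1).inter (QV.cl Y.2.1)).qv,
        Set.inter_subset_left.trans X.2.2⟩ : Subtype _) ≤ Z := hZ.2 (by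
      rintro _ (rfl | rfl)
      · exact fun f hf => hf.1
      · exact fun f hf => hf.2)
    open Pool.Agent.H.MP_7a870e_al in
    exact fun f hf => (mono _ _).2 this
      (Φ_inf (QV.cl X.2.1) (QV.cl Y.2.1) ⟨hN (Or.inl rfl) hf, hN (Or.inr rfl) hf⟩)
  · rintro _ (rfl | rfl)
    · exact (mono _ _).2 (hZ.1 (Or.inl rfl))
    · exact (mono _ _).2 (hZ.1 (Or.inr rfl))
  · open Pool.Agent.H.MP_7a870e_al in
    obtain ⟨M', k1, k2⟩ := Φ_sup (E := E) (QV.cl X.2.1) (QV.cl N.2.1) (hN (Or.inl rfl))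
    open Pool.Agent.H.MP_7a870e_al in
    have : Z ≤ ⟨M' ∩ M, (k1.inter (QV.cl hM)).qv, Set.inter_subset_right⟩ := hZ.2 (by
      rintro W (rfl | rfl)
      · exact Set.subset_inter ((k2 _ (QV.cl W.2.1)).1 (hN (Or.inl rfl))) W.2.2
      · exact Set.subset_inter ((k2 _ (QV.cl W.2.1)).1 (hN (Or.inr rfl))) W.2.2)
    open Pool.Agent.H.MP_7a870e_al in
    exact (k2 _ (QV.cl Z.2.1)).2 fun A hA => (this hA).1

end Pool.Agent.Results.MP_7a870e_al.Q1
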